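import Pool.Agent.Helper16.WSemi.UniqueIso
import Pool.Agent.Helper16.WSemi.Gaps

/-!
# A locus of pointed curves with given Weierstrass semigroup of codimension greater than `2 * g`

The semigroup generated by `30`, `35` and `42` has `157` gaps.  It is the Weierstrass semigroup of
the point at infinity of the curve `x ^ 5 = z ^ 7 + 1`, `y ^ 6 = z ^ 7 + 2`.  Every pointed curve
with this semigroup is a complete intersection given by two equations with `67` coefficients each,
so the locus of these pointed curves has dimension at most `134`, hence codimension at least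
`3 * 157 - 2 - 134 = 335`, which is greater than `2 * 157 = 314`.
-/

namespace Pool.Agent.Results.MP_dde86c_ag.CodimExceeds

open Pool.Agent.Helper16.WSemi

/-- The numerical semigroup `S` generated by `30`, `35`, `42` has genus `g = 157`; it is the
Weierstrass semigroup of some pointed curve, and the locus of pointed curves with Weierstrass
semigroup `S` has dimension at most `134`, so its codimension in the moduli space of pointed
curves of genus `g` is greater than `2 * g`.

The last part makes the dimension bound explicit: each of these pointed curves is given by two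
equations with `67` coefficients each, and these coefficients determine it up to isomorphism. -/
theorem result :
    ((semi : Set ℕ)ᶜ).Finite ∧ genus semi = 157 ∧
    (∃ C : PointedCurve, C.semigroup = semi) ∧
    locusDim semi ≤ 134 ∧
    ((2 * genus semi : ℕ) : ℕ∞) < locusCodim semi ∧
    (expo.card = 67 ∧
      (∀ C : PointedCurve, C.semigroup = semi → ∃ a b : expo → ℂ, C.HasEquations a b) ∧
      ∀ (C C' : PointedCurve) (a b : expo → ℂ),
        C.HasEquations a b → C'.HasEquations a b → C.Iso C') := by
  refine ⟨finite_compl, ncard_compl, exists_pointedCurve, locusDim_le, ?_, card_expo, ?_,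
    fun C C' a b h h' => iso_of_hasEquations h h'⟩
  · have h1 : genus semi = 157 := ncard_compl
    rw [locusCodim, h1]
    calc ((2 * 157 : ℕ) : ℕ∞) < ((3 * 157 - 2 : ℕ) : ℕ∞) - 134 := by
          norm_cast
      _ ≤ ((3 * 157 - 2 : ℕ) : ℕ∞) - locusDim semi := tsub_le_tsub_left locusDim_le _
  · intro C hC
    have hW : ∀ n, (∃ f, RegularAway ℂ C.O f ∧ PoleOrder C.O f n) ↔ n ∈ semi := by
      intro n
      rw [← SetLike.mem_coe, ← hC]
      rfl
    obtain ⟨x, y, z, a, b, hx, hy, hz, hx5, hy6, hgen⟩ :=
      normal_form C.isFunctionField C.isPlace hW
    exact ⟨a, b, x, y, z, hx, hy, hz, hx5, hy6, hgen⟩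

end Pool.Agent.Results.MP_dde86c_ag.CodimExceeds
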